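import Pool.Agent.N399.DM.Main
import Pool.Agent.N410.DC.Oc

/-!
# Orientable five cycle double covers: dominating sets (MP_781dd6_co)

Two vertices are called close if they are joined by an edge or by two different paths with two edges
(for example, if they have two common neighbours). The oriented cycle double cover conjecture, with
five classes, holds for every graph without cut edges which has a dominating set `D` such that every
vertex of `D` is close to all but at most two of the other vertices of `D`; for example
* for all graphs with domination number at most three,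
* for all graphs with total domination number at most four,
* for all graphs with a dominating clique, a dominating complete multipartite subgraph with classes of
  at most three vertices, or a dominating circuit of length five.
The order, the degrees, the width and the connectivity are arbitrary.

Proof. The class is closed under the identification of vertices, and a graph in this class has a
nowhere-zero 4-flow or ten classes of vertices form a Petersen graph (`N399/DM`, starting library).
In the first case there is an orientable cycle double cover with four classes. In the second case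
the covers of the ten smaller graphs in which the vertices outside of one class are identified are
flows whose values are differences of two of five unit vectors, and after permutations of the unit
vectors and changes of sign they fit to a cover of the Petersen graph (`R890/FF/Sgn.lean`, starting
library).
-/

set_option autoImplicit false

namespace Pool.Agent.Results.MP_781dd6_co.DominatingSet

open Finset Pool.Agent.H160R2.HF Pool.Agent.H23.PS

/-- The edge `e` of `K` joins the vertices `x` and `y`. -/
def Joins {V E : Type} (K : OrGraph V E) (e : E) (x y : V) : Prop :=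
  (K.t e = x ∧ K.h e = y) ∨ (K.t e = y ∧ K.h e = x)

/-- The vertices `x` and `y` are joined by an edge, or by two different paths with two edges. -/
def Close {V E : Type} (K : OrGraph V E) (x y : V) : Prop :=
  (∃ e, Joins K e x y) ∨
    ∃ (e f e' f' : E) (a b : V), (e ≠ e' ∨ f ≠ f') ∧ Joins K e x a ∧ Joins K f a y ∧
      Joins K e' x b ∧ Joins K f' b y

/-- In the simple graph `S` the vertices `x` and `y` are adjacent or have two common neighbours. -/
def CloseIn {V : Type} (S : SimpleGraph V) (x y : V) : Prop :=
  S.Adj x y ∨ ∃ a b, a ≠ b ∧ S.Adj x a ∧ S.Adj a y ∧ S.Adj x b ∧ S.Adj b y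

open scoped Classical in
/-- how often the closed walks of the list `C` traverse the arc from `u` to `v` -/
noncomputable def uses {V : Type} {S : SimpleGraph V} (C : List (Σ v : V, S.Walk v v)) (u v : V) :
    ℕ :=
  (C.map (fun c => (c.2.darts.filter (fun d => decide (d.toProd = (u, v)))).length)).sum

/-- The associated digraph of `S` decomposes into directed cycles of length at least three, in five
families none of which uses an edge twice. -/
def FiveFamilies {V : Type} (S : SimpleGraph V) : Prop :=
  ∃ C : Fin 5 → List (Σ v : V, S.Walk v v), (∀ i, ∀ c ∈ C i, c.2.IsCycle) ∧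
    (∀ i u v, uses (C i) u v + uses (C i) v u ≤ 1) ∧
    ∀ u v, S.Adj u v → ∑ i, uses (C i) u v = 1

/-- (1) Let `K` be a bridgeless multigraph (with an orientation, loops and parallel edges allowed)
and `D` a set of vertices such that every vertex outside of `D` which has a neighbour (other than
itself) is close to a vertex of `D`, and every vertex `d` of `D` is close to all but at most two of
the other vertices of `D`. Then `K` has an orientable cycle double cover with five classes, and if
it is an orientation of a simple graph `S`, the associated digraph of `S` decomposes into directed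
cycles of length at least three, in five families none of which uses an edge twice.
(2) This decomposition exists for every finite simple graph `S` without cut edges which has a set
`D` of vertices such that every vertex outside of `D` which has a neighbour is close to a vertex of
`D`, and every vertex of `D` is close to all but at most two of the other vertices of `D`. -/
theorem result :
    (∀ (V E : Type) [Fintype V] [DecidableEq V] [Fintype E] [DecidableEq E] (K : OrGraph V E),
      K.Bridgeless → ∀ D : Finset V,
      (∀ x, x ∉ D → (∃ e y, x ≠ y ∧ Joins K e x y) → ∃ d ∈ D, Close K x d) →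
      (∀ d ∈ D, ∀ W : Finset V, W ⊆ D → (∀ c ∈ W, c ≠ d ∧ ¬ Close K d c) → W.card ≤ 2) →
      FiveClasses K ∧ ∀ S : SimpleGraph V, IsOrientation S K → FiveFamilies S) ∧
    ∀ (V : Type) [Finite V] (S : SimpleGraph V),
      (∀ u v : V, S.Adj u v → (S.deleteEdges {s(u, v)}).Reachable u v) →
      ∀ D : Finset V, (∀ x, x ∉ D → (∃ y, S.Adj x y) → ∃ d ∈ D, CloseIn S x d) →
      (∀ d ∈ D, ∀ W : Finset V, W ⊆ D → (∀ c ∈ W, c ≠ d ∧ ¬ CloseIn S d c) → W.card ≤ 2) →
      FiveFamilies S := by
  have main : ∀ (V E : Type) [Fintype V] [DecidableEq V] [Fintype E] [DecidableEq E]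
      (K : OrGraph V E), K.Bridgeless → ∀ D : Finset V,
      (∀ x, x ∉ D → (∃ e y, x ≠ y ∧ Joins K e x y) → ∃ d ∈ D, Close K x d) →
      (∀ d ∈ D, ∀ W : Finset V, W ⊆ D → (∀ c ∈ W, c ≠ d ∧ ¬ Close K d c) → W.card ≤ 2) →
      FiveClasses K ∧ ∀ S : SimpleGraph V, IsOrientation S K → FiveFamilies S := by
    intro V E _ _ _ _ K hB D h1 h2
    have hD : N399.DM.Dom K.t K.h D := by
      refine ⟨?_, h2⟩
      rintro x hx ⟨e, he, h | h⟩
      · exact h1 x hx ⟨e, K.h e, fun h' => he (h.trans h'), Or.inl ⟨h, rfl⟩⟩
      · exact h1 x hx ⟨e, K.t e, fun h' => he (h'.symm.trans h.symm), Or.inr ⟨rfl, h⟩⟩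
    have h3 : FiveClasses K := by
      have h4 := R890.FF.sgn_class R890.FF.hom3U R890.FF.petOc R890.FF.classes_of_nz
        (Cl := fun s t : E → V => N399.DM.Cl s t)
        (fun s t π h => N399.DM.Cl.map h π) (fun s t h h' => N399.DM.Cl.flow h h') _ K.t K.h rfl
        ⟨D, hD⟩ (R890.FF.n1_of_bridgeless K hB)
      rw [R890.FF.classes_iff] at h4
      exact h4
    exact ⟨h3, fun S hS => cycles_of_classes S K hS h3⟩
  refine ⟨main, ?_⟩
  intro V _ S hS D h1 h2
  classical
  have hV : Fintype V := Fintype.ofFinite V
  have hB := R890.FF.orient_bridgeless S hS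
  have hO := R890.FF.orient_is S
  have hj : ∀ x y, S.Adj x y → ∃ e, Joins (R890.FF.orient S) e x y := by
    intro x y h
    obtain ⟨e, he, -⟩ := hO.2 _ _ h
    exact ⟨e, he.imp id (fun h => ⟨h.2, h.1⟩)⟩
  have hadj : ∀ e x y, Joins (R890.FF.orient S) e x y → S.Adj x y := by
    rintro e x y (⟨rfl, rfl⟩ | ⟨rfl, rfl⟩)
    · exact hO.1 e
    · exact (hO.1 e).symm
  have hcl : ∀ x y, CloseIn S x y → Close (R890.FF.orient S) x y := by
    rintro x y (h | ⟨a, b, hab, k1, k2, k3, k4⟩)
    · exact Or.inl (hj x y h)
    · obtain ⟨e, he⟩ := hj _ _ k1
      obtain ⟨f, hf⟩ := hj _ _ k2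
      obtain ⟨e', he'⟩ := hj _ _ k3
      obtain ⟨f', hf'⟩ := hj _ _ k4
      refine Or.inr ⟨e, f, e', f', a, b, Or.inl ?_, he, hf, he', hf'⟩
      rintro rfl
      rcases he with ⟨l1, l2⟩ | ⟨l1, l2⟩ <;> rcases he' with ⟨m1, m2⟩ | ⟨m1, m2⟩
      · exact hab (l2.symm.trans m2)
      · exact k1.ne (m2.symm.trans l2)
      · exact k3.ne (l2.symm.trans m2)
      · exact hab (l1.symm.trans m1)
  refine (main V _ (R890.FF.orient S) hB D ?_ ?_).2 S hO
  · rintro x hx ⟨e, y, -, he⟩
    obtain ⟨d, hd, hc⟩ := h1 x hx ⟨y, hadj e x y he⟩
    exact ⟨d, hd, hcl _ _ hc⟩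
  · intro d hd W hW hc
    exact h2 d hd W hW fun c hcW => ⟨(hc c hcW).1, fun h => (hc c hcW).2 (hcl _ _ h)⟩

end Pool.Agent.Results.MP_781dd6_co.DominatingSet
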