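import Pool.Agent.N410.DC.Far
import Pool.Agent.N410.DC.Oc

/-!
# Orientable five cycle double covers: five sets with three boundary edges (MP_781dd6_co)

Let `G` be a finite multigraph without cut edges such that among any five pairwise disjoint sets of
vertices with exactly three boundary edges two are joined by an edge, or by two different paths with
two edges. Then `G` has an orientable cycle double cover with five classes.

For example, this holds if all edge cuts with three edges isolate a vertex and the vertices of
degree three have independence number at most four. There is no condition on the order, and the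
number of the edge cuts with three edges is not bounded. More generally the condition is only needed
for sets without boundary edges in the union `F` of a chain of circuits or ears with at most four
new edges and of doubly connected pieces.

Proof. After the contraction of `F` let `H` be a quotient without nowhere-zero 4-flow and without
Petersen quotient such that all proper quotients of `H` have a flow. At least 18 vertices of `H`
have odd degree, no vertex has degree one or two, and `H` has girth at least five (starting library,
`TH362/TF`). A set of `k ≥ 2` vertices of `H` spans at most `2 k - 3` edges (`N410/DC/Sparse.lean`).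
So the sum of `4 - d(y)` over the vertices `y` of `H` which are not isolated is at least six, and
hence at least twelve vertices have degree three. As `H` has girth at least five, five of them are
pairwise not adjacent; their classes are five disjoint sets of vertices of `G` with three boundary
edges, and no two of them are close (`N410/DC/Far.lean`, starting library).

So `G` has a nowhere-zero 4-flow, or ten classes of vertices form a Petersen graph; the condition is
inherited by quotients, and the covers of the ten smaller graphs in which the vertices outside of
one class are identified are glued with the theorem `R890/FF/Sgn.lean` of the starting library.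
-/

set_option autoImplicit false

namespace Pool.Agent.Results.MP_781dd6_co.FarThreeCuts

open Finset Pool.Agent.H160R2.HF Pool.Agent.H23.PS

/-- The edges with exactly one end in `X`. -/
def boundary {V E : Type} [DecidableEq V] [Fintype E] (K : OrGraph V E) (X : Finset V) : Finset E :=
  univ.filter (fun e => ¬ (K.t e ∈ X ↔ K.h e ∈ X))

/-- The union of the sets `C j` with `j < i`. -/
def earlier {E : Type} [DecidableEq E] {m : ℕ} (C : Fin m → Finset E) (i : Fin m) : Finset E :=
  (univ.filter (fun j => j < i)).biUnion C

/-- `H` can be added to the chain after `F`: either (short) `H` has at most four edges outside `F`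
and no bridge modulo `F`: no set `Y` of vertices without boundary edges in `F` has exactly one
boundary edge in `H`; or (doubly connected) `H` contains two disjoint sets each of which connects,
modulo `F`, whatever `H` connects: every set `Y` of vertices without boundary edges in `F` and with
a boundary edge in `H` has boundary edges in both sets. -/
def Adds {V E : Type} [DecidableEq V] [Fintype E] [DecidableEq E] (K : OrGraph V E)
    (F H : Finset E) : Prop :=
  ((H \ F).card ≤ 4 ∧ ∀ Y : Finset V, Disjoint (boundary K Y) F →
    (boundary K Y ∩ H).card ≠ 1) ∨
  ∃ T₁ T₂ : Finset E, T₁ ⊆ H ∧ T₂ ⊆ H ∧ Disjoint T₁ T₂ ∧ ∀ Y : Finset V,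
    Disjoint (boundary K Y) F → ¬ Disjoint (boundary K Y) H →
      ¬ Disjoint (boundary K Y) T₁ ∧ ¬ Disjoint (boundary K Y) T₂

/-- The edge `e` joins the set `X` and the vertex `a`. -/
def Joins {V E : Type} (K : OrGraph V E) (X : Finset V) (a : V) (e : E) : Prop :=
  (K.t e ∈ X ∧ K.h e = a) ∨ (K.t e = a ∧ K.h e ∈ X)

/-- The sets `X` and `Y` are joined by an edge, or by two different paths with two edges. -/
def Close {V E : Type} (K : OrGraph V E) (X Y : Finset V) : Prop :=
  (∃ e, (K.t e ∈ X ∧ K.h e ∈ Y) ∨ (K.t e ∈ Y ∧ K.h e ∈ X)) ∨
    ∃ (e f e' f' : E) (a b : V), (e ≠ e' ∨ f ≠ f') ∧ Joins K X a e ∧ Joins K Y a f ∧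
      Joins K X b e' ∧ Joins K Y b f'

/-- For some chain of sets of edges (for instance the empty chain) among any five pairwise disjoint
sets of vertices with exactly three boundary edges, none of them in the chain, two are close. -/
def NeverFar {V E : Type} [DecidableEq V] [Fintype E] [DecidableEq E] (K : OrGraph V E) : Prop :=
  ∃ (m : ℕ) (C : Fin m → Finset E), (∀ i, Adds K (earlier C i) (C i)) ∧
    ∀ X : Fin 5 → Finset V, (∀ i j, i ≠ j → Disjoint (X i) (X j)) →
      (∀ i, Disjoint (boundary K (X i)) (univ.biUnion C)) → (∀ i, (boundary K (X i)).card = 3) →
      ∃ i j, i ≠ j ∧ Close K (X i) (X j)

open scoped Classical in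
/-- how often the closed walks of the list `C` traverse the arc from `u` to `v` -/
noncomputable def uses {V : Type} {S : SimpleGraph V} (C : List (Σ v : V, S.Walk v v)) (u v : V) :
    ℕ :=
  (C.map (fun c => (c.2.darts.filter (fun d => decide (d.toProd = (u, v)))).length)).sum

/-- The associated digraph of `S` decomposes into directed cycles of length at least three, in five
families none of which uses an edge twice. -/
def FiveFamilies {V : Type} (S : SimpleGraph V) : Prop :=
  ∃ C : Fin 5 → List (Σ v : V, S.Walk v v), (∀ i, ∀ c ∈ C i, c.2.IsCycle) ∧
    (∀ i u v, uses (C i) u v + uses (C i) v u ≤ 1) ∧
    ∀ u v, S.Adj u v → ∑ i, uses (C i) u v = 1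

/-- Every bridgeless multigraph `K` (with an orientation, loops and parallel edges allowed) which
satisfies the condition above has an orientable cycle double cover with five classes, and if it is
an orientation of a simple graph `S`, the associated digraph of `S` decomposes into directed cycles
of length at least three, in five families none of which uses an edge twice. -/
theorem result (V E : Type) [Fintype V] [DecidableEq V] [Fintype E] [DecidableEq E]
    (K : OrGraph V E) (hB : K.Bridgeless) (h : NeverFar K) :
    FiveClasses K ∧ ∀ S : SimpleGraph V, IsOrientation S K → FiveFamilies S := by
  obtain ⟨m, C, hC, hO⟩ := h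
  have h1 : FiveClasses K := N410.DC.oc_gen N410.DC.inh_far5 K hB (N410.DC.GCl.of_steps hC hO)
  exact ⟨h1, fun S hS => cycles_of_classes S K hS h1⟩

end Pool.Agent.Results.MP_781dd6_co.FarThreeCuts
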