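import Pool.Agent.J4.H74.OcInh
import Pool.Agent.N410.DC.Oc

/-!
# Orientable five cycle double covers: independence number at most six (MP_781dd6_co)

The oriented cycle double cover conjecture, with five classes, holds for every finite graph without
cut edges and with independence number at most six. More generally it holds for every bridgeless
multigraph in which any seven vertices include two which are joined by an edge or by two different
paths with two edges (for example, which have two common neighbours). The order, the degrees, the
width and the connectivity are arbitrary. Still more generally this is only needed for disjoint sets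
of vertices (in the place of the seven vertices) without boundary edges in the union `F` of a chain
of circuits or ears with at most four new edges and of doubly connected pieces.

Proof. After the contraction of `F` let `H` be a quotient without nowhere-zero 4-flow and without
Petersen quotient such that all proper quotients of `H` have a flow. Then `H` has girth at least
five, the degrees of its vertices which are not isolated are at least three, and at least 18 of
them are odd (starting library, `TH362/TF`, `R890/FF`). Such a graph has seven independent vertices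
which are not isolated (`R545/IN`). Their classes are seven disjoint sets of vertices with boundary
edges, and no two of them are close. So there is no such `H`, and `G` has a nowhere-zero 4-flow, or
ten classes of vertices form a Petersen graph; the condition is inherited by quotients, and the
covers of the ten smaller graphs in which the vertices outside of one class are identified are glued
with the theorem `R890/FF/Sgn.lean` of the starting library.
-/

set_option autoImplicit false

namespace Pool.Agent.Results.MP_781dd6_co.IndependenceNumberSix

open Finset Pool.Agent.H160R2.HF Pool.Agent.H23.PS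

/-- The edges with exactly one end in `X`. -/
def boundary {V E : Type} [DecidableEq V] [Fintype E] (K : OrGraph V E) (X : Finset V) : Finset E :=
  univ.filter (fun e => ¬ (K.t e ∈ X ↔ K.h e ∈ X))

/-- The union of the sets `C j` with `j < i`. -/
def earlier {E : Type} [DecidableEq E] {m : ℕ} (C : Fin m → Finset E) (i : Fin m) : Finset E :=
  (univ.filter (fun j => j < i)).biUnion C

/-- `H` can be added to the chain after `F`: either (short) `H` has at most four edges outside `F`
and no bridge modulo `F`: no set `Y` of vertices without boundary edges in `F` has exactly one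
boundary edge in `H`; or (doubly connected) `H` contains two disjoint sets each of which connects,
modulo `F`, whatever `H` connects: every set `Y` of vertices without boundary edges in `F` and with
a boundary edge in `H` has boundary edges in both sets. -/
def Adds {V E : Type} [DecidableEq V] [Fintype E] [DecidableEq E] (K : OrGraph V E)
    (F H : Finset E) : Prop :=
  ((H \ F).card ≤ 4 ∧ ∀ Y : Finset V, Disjoint (boundary K Y) F →
    (boundary K Y ∩ H).card ≠ 1) ∨
  ∃ T₁ T₂ : Finset E, T₁ ⊆ H ∧ T₂ ⊆ H ∧ Disjoint T₁ T₂ ∧ ∀ Y : Finset V,
    Disjoint (boundary K Y) F → ¬ Disjoint (boundary K Y) H →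
      ¬ Disjoint (boundary K Y) T₁ ∧ ¬ Disjoint (boundary K Y) T₂

/-- The edge `e` joins the set `X` and the vertex `a`. -/
def Joins {V E : Type} (K : OrGraph V E) (X : Finset V) (a : V) (e : E) : Prop :=
  (K.t e ∈ X ∧ K.h e = a) ∨ (K.t e = a ∧ K.h e ∈ X)

/-- The sets `X` and `Y` are joined by an edge, or by two different paths with two edges. -/
def Close {V E : Type} (K : OrGraph V E) (X Y : Finset V) : Prop :=
  (∃ e, (K.t e ∈ X ∧ K.h e ∈ Y) ∨ (K.t e ∈ Y ∧ K.h e ∈ X)) ∨
    ∃ (e f e' f' : E) (a b : V), (e ≠ e' ∨ f ≠ f') ∧ Joins K X a e ∧ Joins K Y a f ∧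
      Joins K X b e' ∧ Joins K Y b f'

/-- For some chain of sets of edges (for instance the empty chain) among any seven pairwise disjoint
sets of vertices, each of which has boundary edges, but none in the chain, two are close. -/
def NeverFar {V E : Type} [DecidableEq V] [Fintype E] [DecidableEq E] (K : OrGraph V E) : Prop :=
  ∃ (m : ℕ) (C : Fin m → Finset E), (∀ i, Adds K (earlier C i) (C i)) ∧
    ∀ X : Fin 7 → Finset V, (∀ i j, i ≠ j → Disjoint (X i) (X j)) →
      (∀ i, Disjoint (boundary K (X i)) (univ.biUnion C)) → (∀ i, (boundary K (X i)).Nonempty) →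
      ∃ i j, i ≠ j ∧ Close K (X i) (X j)

open scoped Classical in
/-- how often the closed walks of the list `C` traverse the arc from `u` to `v` -/
noncomputable def uses {V : Type} {S : SimpleGraph V} (C : List (Σ v : V, S.Walk v v)) (u v : V) :
    ℕ :=
  (C.map (fun c => (c.2.darts.filter (fun d => decide (d.toProd = (u, v)))).length)).sum

/-- The associated digraph of `S` decomposes into directed cycles of length at least three, in five
families none of which uses an edge twice. -/
def FiveFamilies {V : Type} (S : SimpleGraph V) : Prop :=
  ∃ C : Fin 5 → List (Σ v : V, S.Walk v v), (∀ i, ∀ c ∈ C i, c.2.IsCycle) ∧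
    (∀ i u v, uses (C i) u v + uses (C i) v u ≤ 1) ∧
    ∀ u v, S.Adj u v → ∑ i, uses (C i) u v = 1

/-- (1) Every bridgeless multigraph `K` (with an orientation, loops and parallel edges allowed)
which satisfies the condition above has an orientable cycle double cover with five classes, and if
it is an orientation of a simple graph `S`, the associated digraph of `S` decomposes into directed
cycles of length at least three, in five families none of which uses an edge twice.
(2) This decomposition exists for every finite simple graph `S` without cut edges in which any seven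
different vertices include two which are adjacent or have two common neighbours; for example, for
all graphs with independence number at most six. -/
theorem result :
    (∀ (V E : Type) [Fintype V] [DecidableEq V] [Fintype E] [DecidableEq E] (K : OrGraph V E),
      K.Bridgeless → NeverFar K →
      FiveClasses K ∧ ∀ S : SimpleGraph V, IsOrientation S K → FiveFamilies S) ∧
    ∀ (V : Type) [Finite V] (S : SimpleGraph V),
      (∀ u v : V, S.Adj u v → (S.deleteEdges {s(u, v)}).Reachable u v) →
      (∀ x : Fin 7 → V, Function.Injective x → ∃ i j, i ≠ j ∧ (S.Adj (x i) (x j) ∨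
        ∃ a b, a ≠ b ∧ S.Adj (x i) a ∧ S.Adj a (x j) ∧ S.Adj (x i) b ∧ S.Adj b (x j))) →
      FiveFamilies S := by
  have main : ∀ (V E : Type) [Fintype V] [DecidableEq V] [Fintype E] [DecidableEq E]
      (K : OrGraph V E), K.Bridgeless → NeverFar K →
      FiveClasses K ∧ ∀ S : SimpleGraph V, IsOrientation S K → FiveFamilies S := by
    intro V E _ _ _ _ K hB ⟨m, C, hC, hO⟩
    have h1 : FiveClasses K := N410.DC.oc_gen Pool.Agent.J4.H74.OC.inh_far7 K hB
      (N410.DC.GCl.of_steps hC hO)
    exact ⟨h1, fun S hS => cycles_of_classes S K hS h1⟩
  refine ⟨main, ?_⟩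
  intro V _ S hS h7
  classical
  have hV : Fintype V := Fintype.ofFinite V
  have hB := R890.FF.orient_bridgeless S hS
  have hO := R890.FF.orient_is S
  refine (main V _ (R890.FF.orient S) hB ⟨0, Fin.elim0, fun i => i.elim0, ?_⟩).2 S hO
  intro X hX _ hne
  -- representatives with boundary edges
  have hrep : ∀ i, ∃ x ∈ X i, True := by
    intro i
    obtain ⟨e, he⟩ := hne i
    have h1 := (mem_filter.1 he).2
    by_cases h2 : (R890.FF.orient S).t e ∈ X i
    · exact ⟨_, h2, trivial⟩
    · by_cases h3 : (R890.FF.orient S).h e ∈ X i
      · exact ⟨_, h3, trivial⟩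
      · exact absurd ⟨fun h => absurd h h2, fun h => absurd h h3⟩ h1
  choose x hx _ using hrep
  have hinj : Function.Injective x := by
    intro i j hij
    by_contra hne'
    exact (disjoint_left.1 (hX i j hne')) (hx i) (hij ▸ hx j)
  obtain ⟨i, j, hij, hc⟩ := h7 x hinj
  refine ⟨i, j, hij, ?_⟩
  rcases hc with hadj | ⟨a, b, hab, h1, h2, h3, h4⟩
  · left
    obtain ⟨e, he, -⟩ := hO.2 _ _ hadj
    refine ⟨e, ?_⟩
    rcases he with ⟨k1, k2⟩ | ⟨k1, k2⟩
    · exact Or.inl ⟨by rw [k1]; exact hx i, by rw [k2]; exact hx j⟩
    · exact Or.inr ⟨by rw [k2]; exact hx j, by rw [k1]; exact hx i⟩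
  · right
    obtain ⟨e, he, -⟩ := hO.2 _ _ h1
    obtain ⟨f, hf, -⟩ := hO.2 _ _ h2
    obtain ⟨e', he', -⟩ := hO.2 _ _ h3
    obtain ⟨f', hf', -⟩ := hO.2 _ _ h4
    refine ⟨e, f, e', f', a, b, ?_, ?_, ?_, ?_, ?_⟩
    · left
      rintro rfl
      have hxi : ∀ c, S.Adj (x i) c → x i ≠ c := fun c h => h.ne
      rcases he with ⟨k1, k2⟩ | ⟨k1, k2⟩ <;> rcases he' with ⟨l1, l2⟩ | ⟨l1, l2⟩
      · exact hab (k2.symm.trans l2)
      · exact hxi a h1 (l1.symm.trans k2)
      · exact hxi b h3 (k1.symm.trans l2)
      · exact hab (k2.symm.trans l2)
    · rcases he with ⟨k1, k2⟩ | ⟨k1, k2⟩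
      · exact Or.inl ⟨by rw [k1]; exact hx i, k2⟩
      · exact Or.inr ⟨k2, by rw [k1]; exact hx i⟩
    · rcases hf with ⟨k1, k2⟩ | ⟨k1, k2⟩
      · exact Or.inr ⟨k1, by rw [k2]; exact hx j⟩
      · exact Or.inl ⟨by rw [k2]; exact hx j, k1⟩
    · rcases he' with ⟨k1, k2⟩ | ⟨k1, k2⟩
      · exact Or.inl ⟨by rw [k1]; exact hx i, k2⟩
      · exact Or.inr ⟨k2, by rw [k1]; exact hx i⟩
    · rcases hf' with ⟨k1, k2⟩ | ⟨k1, k2⟩
      · exact Or.inr ⟨k1, by rw [k2]; exact hx j⟩
      · exact Or.inl ⟨by rw [k2]; exact hx j, k1⟩

end Pool.Agent.Results.MP_781dd6_co.IndependenceNumberSix
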