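import Pool.Agent.J4.H74.OcInh
import Pool.Agent.N410.DC.Oc

/-!
# Orientable five cycle double covers: matching number at most eight (MP_781dd6_co)

The oriented cycle double cover conjecture, with five classes, holds for every finite graph without
cut edges and without a matching with nine edges. More generally, only matchings modulo the union
`F` of a chain of circuits or ears with at most four new edges and of doubly connected pieces must
have at most eight edges: the ends of their edges belong to different components of the graph with
the edges `F`.

Proof. After the contraction of `F` let `H` be a quotient without nowhere-zero 4-flow and without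
Petersen quotient such that all proper quotients of `H` have a flow. Then `H` has no circuits with
at most four edges, no vertices with one or two neighbours, and at least 18 vertices of odd degree
(starting library). By the Tutte-Berge formula and a count such a graph has a matching with nine
edges (`R769/MN`, starting library). So there is no such `H`, and `G` has a nowhere-zero 4-flow, or
ten classes of vertices form a Petersen graph; the condition is inherited by quotients, and the
covers of the ten smaller graphs in which the vertices outside of one class are identified are glued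
with the theorem `R890/FF/Sgn.lean` of the starting library.
-/

set_option autoImplicit false

namespace Pool.Agent.Results.MP_781dd6_co.MatchingNumberEight

open Finset Pool.Agent.H160R2.HF Pool.Agent.H23.PS

/-- The edges with exactly one end in `X`. -/
def boundary {V E : Type} [DecidableEq V] [Fintype E] (K : OrGraph V E) (X : Finset V) : Finset E :=
  univ.filter (fun e => ¬ (K.t e ∈ X ↔ K.h e ∈ X))

/-- The union of the sets `C j` with `j < i`. -/
def earlier {E : Type} [DecidableEq E] {m : ℕ} (C : Fin m → Finset E) (i : Fin m) : Finset E :=
  (univ.filter (fun j => j < i)).biUnion C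

/-- `H` can be added to the chain after `F`: either (short) `H` has at most four edges outside `F`
and no bridge modulo `F`: no set `Y` of vertices without boundary edges in `F` has exactly one
boundary edge in `H`; or (doubly connected) `H` contains two disjoint sets each of which connects,
modulo `F`, whatever `H` connects: every set `Y` of vertices without boundary edges in `F` and with
a boundary edge in `H` has boundary edges in both sets. -/
def Adds {V E : Type} [DecidableEq V] [Fintype E] [DecidableEq E] (K : OrGraph V E)
    (F H : Finset E) : Prop :=
  ((H \ F).card ≤ 4 ∧ ∀ Y : Finset V, Disjoint (boundary K Y) F →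
    (boundary K Y ∩ H).card ≠ 1) ∨
  ∃ T₁ T₂ : Finset E, T₁ ⊆ H ∧ T₂ ⊆ H ∧ Disjoint T₁ T₂ ∧ ∀ Y : Finset V,
    Disjoint (boundary K Y) F → ¬ Disjoint (boundary K Y) H →
      ¬ Disjoint (boundary K Y) T₁ ∧ ¬ Disjoint (boundary K Y) T₂

/-- The vertices `x` and `y` belong to different components of the graph with the edges `F`: some set
of vertices without boundary edges in `F` contains `x` but not `y`. -/
def Apart {V E : Type} [DecidableEq V] [Fintype E] (K : OrGraph V E) (F : Finset E) (x y : V) :
    Prop :=
  ∃ Y : Finset V, Disjoint (boundary K Y) F ∧ x ∈ Y ∧ y ∉ Y

/-- `M` is a matching modulo `F`: the ends of the edges of `M` belong to different components of the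
graph with the edges `F` (for the empty set `F` this is a matching). -/
def MatchingMod {V E : Type} [DecidableEq V] [Fintype E] (K : OrGraph V E) (F M : Finset E) :
    Prop :=
  (∀ e ∈ M, Apart K F (K.t e) (K.h e)) ∧ ∀ e ∈ M, ∀ e' ∈ M, e ≠ e' →
    Apart K F (K.t e) (K.t e') ∧ Apart K F (K.t e) (K.h e') ∧ Apart K F (K.h e) (K.t e') ∧
      Apart K F (K.h e) (K.h e')

/-- For some chain of sets of edges (for instance the empty chain) all matchings modulo the union of
the chain have at most eight edges. -/
def SmallMatchings {V E : Type} [DecidableEq V] [Fintype E] [DecidableEq E] (K : OrGraph V E) :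
    Prop :=
  ∃ (m : ℕ) (C : Fin m → Finset E), (∀ i, Adds K (earlier C i) (C i)) ∧
    ∀ M : Finset E, MatchingMod K (univ.biUnion C) M → M.card ≤ 8

open scoped Classical in
/-- how often the closed walks of the list `C` traverse the arc from `u` to `v` -/
noncomputable def uses {V : Type} {S : SimpleGraph V} (C : List (Σ v : V, S.Walk v v)) (u v : V) :
    ℕ :=
  (C.map (fun c => (c.2.darts.filter (fun d => decide (d.toProd = (u, v)))).length)).sum

/-- The associated digraph of `S` decomposes into directed cycles of length at least three, in five
families none of which uses an edge twice. -/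
def FiveFamilies {V : Type} (S : SimpleGraph V) : Prop :=
  ∃ C : Fin 5 → List (Σ v : V, S.Walk v v), (∀ i, ∀ c ∈ C i, c.2.IsCycle) ∧
    (∀ i u v, uses (C i) u v + uses (C i) v u ≤ 1) ∧
    ∀ u v, S.Adj u v → ∑ i, uses (C i) u v = 1

/-- (1) Every bridgeless multigraph `K` (with an orientation, loops and parallel edges allowed)
which satisfies the condition above has an orientable cycle double cover with five classes, and if
it is an orientation of a simple graph `S`, the associated digraph of `S` decomposes into directed
cycles of length at least three, in five families none of which uses an edge twice.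
(2) This decomposition exists for every finite simple graph `S` without cut edges and without a
matching with nine edges. -/
theorem result :
    (∀ (V E : Type) [Fintype V] [DecidableEq V] [Fintype E] [DecidableEq E] (K : OrGraph V E),
      K.Bridgeless → SmallMatchings K →
      FiveClasses K ∧ ∀ S : SimpleGraph V, IsOrientation S K → FiveFamilies S) ∧
    ∀ (V : Type) [Finite V] (S : SimpleGraph V),
      (∀ u v : V, S.Adj u v → (S.deleteEdges {s(u, v)}).Reachable u v) →
      (¬ ∃ x y : Fin 9 → V, (∀ i, S.Adj (x i) (y i)) ∧ ∀ i j, i ≠ j →
        x i ≠ x j ∧ x i ≠ y j ∧ y i ≠ y j) →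
      FiveFamilies S := by
  have main : ∀ (V E : Type) [Fintype V] [DecidableEq V] [Fintype E] [DecidableEq E]
      (K : OrGraph V E), K.Bridgeless → SmallMatchings K →
      FiveClasses K ∧ ∀ S : SimpleGraph V, IsOrientation S K → FiveFamilies S := by
    intro V E _ _ _ _ K hB ⟨m, C, hC, hO⟩
    have h1 : FiveClasses K := N410.DC.oc_gen Pool.Agent.J4.H74.OC.inh_mat8 K hB
      (N410.DC.GCl.of_steps hC hO)
    exact ⟨h1, fun S hS => cycles_of_classes S K hS h1⟩
  refine ⟨main, ?_⟩
  intro V _ S hS h9
  classical
  have hV : Fintype V := Fintype.ofFinite V
  have hB := R890.FF.orient_bridgeless S hS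
  have hO := R890.FF.orient_is S
  refine (main V _ (R890.FF.orient S) hB ⟨0, Fin.elim0, fun i => i.elim0, ?_⟩).2 S hO
  intro M hM
  by_contra hcon
  obtain ⟨M', hM', hc⟩ := exists_subset_card_eq (show 9 ≤ M.card by omega)
  set φ := (Finset.equivFinOfCardEq hc).symm with hφ
  have hap : ∀ {F : Finset _} {x y : V}, Apart (R890.FF.orient S) F x y → x ≠ y := by
    rintro F x y ⟨Y, -, h2, h3⟩ rfl
    exact h3 h2
  apply h9
  refine ⟨fun i => (R890.FF.orient S).t (φ i : _), fun i => (R890.FF.orient S).h (φ i : _),
    fun i => hO.1 _, fun i j hij => ?_⟩
  have hne : (φ i).1 ≠ (φ j).1 := fun h => hij (φ.injective (Subtype.ext h))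
  obtain ⟨h1, h2, h3, h4⟩ := hM.2 _ (hM' (φ i).2) _ (hM' (φ j).2) hne
  exact ⟨hap h1, hap h2, hap h4⟩

end Pool.Agent.Results.MP_781dd6_co.MatchingNumberEight
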